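import Pool.Agent.Y290.PL.Stm

/-!
# Project PL, part GLUE: gluing of diffeomorphisms (helper801)
-/

set_option autoImplicit false

open MeasureTheory Set

open scoped ContDiff

namespace Pool.Agent.Y801.PL.Glue

open Pool.Agent.Y290.PL

theorem dif_deriv_out {h : ℝ → ℝ} (hh : Dif h) {x : ℝ} (hx : x ∉ Icc (0 : ℝ) 1) :
    deriv h x = 1 := by
  have h1 : h =ᶠ[nhds x] fun y => y := by
    filter_upwards [isClosed_Icc.isOpen_compl.mem_nhds hx] with y hy
    exact hh.o y hy
  rw [h1.deriv_eq]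
  simp

theorem dif_mono {h : ℝ → ℝ} (hh : Dif h) : StrictMono h :=
  strictMono_of_deriv_pos hh.d

theorem dif_bound {h : ℝ → ℝ} (hh : Dif h) (x : ℝ) : |h x - x| ≤ 3 := by
  by_cases hx : x ∈ Icc (0 : ℝ) 1
  · have h1 : h (-1) = -1 := hh.o _ (by intro h; linarith [h.1])
    have h2 : h 2 = 2 := hh.o _ (by intro h; linarith [h.2])
    have h3 : h (-1) ≤ h x := (dif_mono hh).monotone (by linarith [hx.1])
    have h4 : h x ≤ h 2 := (dif_mono hh).monotone (by linarith [hx.2])
    rw [abs_le]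
    constructor <;> linarith [hx.1, hx.2]
  · rw [hh.o x hx]
    simp

section

variable (h : ℕ → ℝ → ℝ) (X : ℕ → ℝ)

open Classical in
/-- the glued map -/
noncomputable def H (x : ℝ) : ℝ :=
  if hx : ∃ j, x ∈ Icc (X j) (X j + 1) then X hx.choose + h hx.choose (x - X hx.choose) else x

open Classical in
/-- its derivative -/
noncomputable def w (x : ℝ) : ℝ :=
  if hx : ∃ j, x ∈ Icc (X j) (X j + 1) then deriv (h hx.choose) (x - X hx.choose) else 1

variable {h X}

theorem gap (hX : ∀ j, X j + 2 ≤ X (j + 1)) {i j : ℕ} (hij : i < j) : X i + 2 ≤ X j := by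
  have hm : Monotone X := monotone_nat_of_le_succ fun n => by linarith [hX n]
  exact (hX i).trans (hm hij)

theorem uniq (hX : ∀ j, X j + 2 ≤ X (j + 1)) {i j : ℕ} {x : ℝ} (hi : x ∈ Icc (X i) (X i + 1))
    (hj : x ∈ Ioo (X j - 1) (X j + 2)) : i = j := by
  rcases lt_trichotomy i j with hij | hij | hij
  · have := gap hX hij
    linarith [hi.2, hj.1]
  · exact hij
  · have := gap hX hij
    linarith [hi.1, hj.2]

theorem H_block (hd : ∀ j, Dif (h j)) (hX : ∀ j, X j + 2 ≤ X (j + 1)) {j : ℕ} {x : ℝ}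
    (hj : x ∈ Ioo (X j - 1) (X j + 2)) :
    H h X x = X j + h j (x - X j) ∧ w h X x = deriv (h j) (x - X j) := by
  unfold H w
  by_cases hx : ∃ j, x ∈ Icc (X j) (X j + 1)
  · rw [dif_pos hx, dif_pos hx]
    have e := uniq hX hx.choose_spec hj
    rw [e]
    exact ⟨rfl, rfl⟩
  · rw [dif_neg hx, dif_neg hx]
    have hn : x - X j ∉ Icc (0 : ℝ) 1 := by
      intro h1
      exact hx ⟨j, by linarith [h1.1], by linarith [h1.2]⟩
    rw [(hd j).o _ hn, dif_deriv_out (hd j) hn]
    exact ⟨by ring, rfl⟩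

theorem H_out {x : ℝ} (hx : ∀ j, x ∉ Icc (X j) (X j + 1)) : H h X x = x ∧ w h X x = 1 := by
  unfold H w
  have hx' : ¬ ∃ j, x ∈ Icc (X j) (X j + 1) := by
    rintro ⟨j, hj⟩
    exact hx j hj
  rw [dif_neg hx', dif_neg hx']
  exact ⟨rfl, rfl⟩

theorem loc (hd : ∀ j, Dif (h j)) (hX : ∀ j, X j + 2 ≤ X (j + 1)) (x : ℝ) :
    HasDerivAt (H h X) (w h X x) x ∧ ContinuousAt (w h X) x := by
  by_cases hx : ∃ j, x ∈ Ioo (X j - 1) (X j + 2)
  · obtain ⟨j, hj⟩ := hx
    have e1 : H h X =ᶠ[nhds x] fun y => X j + h j (y - X j) := by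
      filter_upwards [isOpen_Ioo.mem_nhds hj] with y hy
      exact (H_block hd hX hy).1
    have e2 : w h X =ᶠ[nhds x] fun y => deriv (h j) (y - X j) := by
      filter_upwards [isOpen_Ioo.mem_nhds hj] with y hy
      exact (H_block hd hX hy).2
    have hdiff : Differentiable ℝ (h j) := (hd j).s.differentiable (by simp)
    have hcont : Continuous (deriv (h j)) := (hd j).s.continuous_deriv (by simp)
    constructor
    · rw [(H_block hd hX hj).2]
      refine HasDerivAt.congr_of_eventuallyEq ?_ e1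
      have h1 := (hdiff (x - X j)).hasDerivAt.comp_sub_const x (X j)
      simpa using h1.const_add (X j)
    · refine ContinuousAt.congr ?_ e2.symm
      exact (hcont.comp (continuous_id.sub continuous_const)).continuousAt
  · have hb : ∀ y ∈ Ioo (x - 1 / 2) (x + 1 / 2), ∀ j, y ∉ Icc (X j) (X j + 1) := by
      intro y hy j hj
      apply hx
      exact ⟨j, by linarith [hy.2, hj.1], by linarith [hy.1, hj.2]⟩
    have hxm : x ∈ Ioo (x - 1 / 2) (x + 1 / 2) := ⟨by linarith, by linarith⟩
    have e1 : H h X =ᶠ[nhds x] fun y => y := by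
      filter_upwards [isOpen_Ioo.mem_nhds hxm] with y hy
      exact (H_out (hb y hy)).1
    have e2 : w h X =ᶠ[nhds x] fun _ => 1 := by
      filter_upwards [isOpen_Ioo.mem_nhds hxm] with y hy
      exact (H_out (hb y hy)).2
    constructor
    · rw [(H_out (hb x hxm)).2]
      exact HasDerivAt.congr_of_eventuallyEq (hasDerivAt_id x) e1
    · exact ContinuousAt.congr continuousAt_const e2.symm

theorem w_cont (hd : ∀ j, Dif (h j)) (hX : ∀ j, X j + 2 ≤ X (j + 1)) : Continuous (w h X) :=
  continuous_iff_continuousAt.mpr fun x => (loc hd hX x).2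

theorem w_pos (hd : ∀ j, Dif (h j)) (x : ℝ) : 0 < w h X x := by
  unfold w
  split_ifs with hx
  · exact (hd _).d _
  · exact one_pos

theorem H_mono (hd : ∀ j, Dif (h j)) (hX : ∀ j, X j + 2 ≤ X (j + 1)) : StrictMono (H h X) := by
  apply strictMono_of_deriv_pos
  intro x
  rw [(loc hd hX x).1.deriv]
  exact w_pos hd x

theorem H_cont (hd : ∀ j, Dif (h j)) (hX : ∀ j, X j + 2 ≤ X (j + 1)) : Continuous (H h X) :=
  continuous_iff_continuousAt.mpr fun x => (loc hd hX x).1.continuousAt

theorem H_bound (hd : ∀ j, Dif (h j)) (x : ℝ) : |H h X x - x| ≤ 3 := by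
  unfold H
  split_ifs with hx
  · have := dif_bound (hd hx.choose) (x - X hx.choose)
    have e : X hx.choose + h hx.choose (x - X hx.choose) - x =
        h hx.choose (x - X hx.choose) - (x - X hx.choose) := by ring
    rw [e]
    exact this
  · simp

theorem H_int (hd : ∀ j, Dif (h j)) (hX : ∀ j, X j + 2 ≤ X (j + 1)) (a b : ℝ) :
    H h X b - H h X a = ∫ x in a..b, w h X x := by
  rw [intervalIntegral.integral_eq_sub_of_hasDerivAt (fun x _ => (loc hd hX x).1)
    ((w_cont hd hX).intervalIntegrable a b)]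

theorem w2_ii (hd : ∀ j, Dif (h j)) (hX : ∀ j, X j + 2 ≤ X (j + 1)) (a b : ℝ) :
    IntervalIntegrable (fun x => (w h X x) ^ 2) volume a b :=
  ((w_cont hd hX).pow 2).intervalIntegrable a b

/-- inside the neighbourhood of one block -/
theorem one_block {C : ℝ} (hd : ∀ j, Dif (h j)) (hX : ∀ j, X j + 2 ≤ X (j + 1))
    (hR : ∀ j, RH 0 C (h j) (fun _ => 0)) {x y : ℝ} (hxy : x < y) {j : ℕ}
    (hx : X j - 1 < x) (hy : y < X j + 2) :
    (y - x) * ∫ t in x..y, (w h X t) ^ 2 ≤ C * (H h X y - H h X x) ^ 2 := by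
  have h1 := hR j (x - X j) (y - X j) (by linarith)
  have h2 : ∫ t in (x - X j)..(y - X j), (deriv (h j) t) ^ 2 * (1 + 0 * (0 : ℝ)) =
      ∫ t in x..y, (w h X t) ^ 2 := by
    rw [← intervalIntegral.integral_comp_sub_right
      (fun t => (deriv (h j) t) ^ 2 * (1 + 0 * (0 : ℝ))) (X j)]
    apply intervalIntegral.integral_congr
    intro t ht
    rw [uIcc_of_le hxy.le] at ht
    have := (H_block hd hX (j := j) (x := t) ⟨by linarith [ht.1], by linarith [ht.2]⟩).2
    simp only [this]
    ring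
  have e1 := (H_block hd hX (j := j) (x := x) ⟨hx, by linarith⟩).1
  have e2 := (H_block hd hX (j := j) (x := y) ⟨by linarith, hy⟩).1
  rw [e1, e2, ← h2]
  have e3 : X j + h j (y - X j) - (X j + h j (x - X j)) = h j (y - X j) - h j (x - X j) := by
    ring
  rw [e3]
  have e4 : y - X j - (x - X j) = y - x := by ring
  rw [e4] at h1
  exact h1

theorem C_one {C : ℝ} (hd : ∀ j, Dif (h j)) (hR : ∀ j, RH 0 C (h j) (fun _ => 0)) : 1 ≤ C := by
  have h1 := hR 0 2 3 (by norm_num)
  have e1 : h 0 2 = 2 := (hd 0).o _ (by intro h; linarith [h.2])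
  have e2 : h 0 3 = 3 := (hd 0).o _ (by intro h; linarith [h.2])
  have e3 : ∫ t in (2 : ℝ)..3, (deriv (h 0) t) ^ 2 * (1 + 0 * (0 : ℝ)) = 1 := by
    have : ∫ t in (2 : ℝ)..3, (deriv (h 0) t) ^ 2 * (1 + 0 * (0 : ℝ)) = ∫ t in (2 : ℝ)..3, (1 : ℝ) := by
      apply intervalIntegral.integral_congr
      intro t ht
      rw [uIcc_of_le (by norm_num)] at ht
      have : deriv (h 0) t = 1 := dif_deriv_out (hd 0) (by intro h; linarith [h.2, ht.1])
      simp only [this]
      ring
    rw [this]
    simp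
    norm_num
  rw [e1, e2, e3] at h1
  linarith

theorem H_diff_le (hd : ∀ j, Dif (h j)) (x y : ℝ) : H h X y - H h X x ≤ y - x + 6 := by
  have h1 := abs_le.mp (H_bound (X := X) hd x)
  have h2 := abs_le.mp (H_bound (X := X) hd y)
  linarith [h1.1, h2.2]

theorem H_diff_ge (hd : ∀ j, Dif (h j)) (x y : ℝ) : y - x - 6 ≤ H h X y - H h X x := by
  have h1 := abs_le.mp (H_bound (X := X) hd x)
  have h2 := abs_le.mp (H_bound (X := X) hd y)
  linarith [h1.2, h2.1]

/-- energy of an interval of length one half -/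
theorem half {C : ℝ} (hd : ∀ j, Dif (h j)) (hX : ∀ j, X j + 2 ≤ X (j + 1))
    (hR : ∀ j, RH 0 C (h j) (fun _ => 0)) (t : ℝ) :
    ∫ s in t..(t + 1 / 2), (w h X s) ^ 2 ≤ 98 * C := by
  have hC := C_one hd hR
  by_cases hx : ∃ j, ∃ s ∈ Icc t (t + 1 / 2), s ∈ Icc (X j) (X j + 1)
  · obtain ⟨j, s, hs, hj⟩ := hx
    have h1 := one_block hd hX hR (x := t) (y := t + 1 / 2) (by linarith) (j := j)
      (by linarith [hs.2, hj.1]) (by linarith [hs.1, hj.2])
    have h2 := H_diff_le (X := X) hd t (t + 1 / 2)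
    have h3 : 0 ≤ H h X (t + 1 / 2) - H h X t :=
      sub_nonneg.mpr ((H_mono hd hX).monotone (by linarith))
    have h4 : (H h X (t + 1 / 2) - H h X t) ^ 2 ≤ 49 := by nlinarith
    nlinarith
  · have h1 : ∫ s in t..(t + 1 / 2), (w h X s) ^ 2 = ∫ s in t..(t + 1 / 2), (1 : ℝ) := by
      apply intervalIntegral.integral_congr
      intro s hs
      rw [uIcc_of_le (by linarith)] at hs
      have := (H_out (h := h) (X := X) (x := s) (fun j hj => hx ⟨j, s, hs, hj⟩)).2
      simp only [this]
      ring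
    rw [h1]
    simp
    linarith

theorem halves {C : ℝ} (hd : ∀ j, Dif (h j)) (hX : ∀ j, X j + 2 ≤ X (j + 1))
    (hR : ∀ j, RH 0 C (h j) (fun _ => 0)) (t : ℝ) (n : ℕ) :
    ∫ s in t..(t + n / 2), (w h X s) ^ 2 ≤ n * (98 * C) := by
  induction n with
  | zero => simp
  | succ n ih =>
    have e : ∫ s in t..(t + ((n + 1 : ℕ) : ℝ) / 2), (w h X s) ^ 2 =
        (∫ s in t..(t + n / 2), (w h X s) ^ 2) +
          ∫ s in (t + n / 2)..((t + n / 2) + 1 / 2), (w h X s) ^ 2 := by
      rw [intervalIntegral.integral_add_adjacent_intervals (w2_ii hd hX _ _) (w2_ii hd hX _ _)]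
      congr 1
      push_cast
      ring
    rw [e]
    have := half hd hX hR (t + n / 2)
    push_cast
    linarith

theorem long {C : ℝ} (hd : ∀ j, Dif (h j)) (hX : ∀ j, X j + 2 ≤ X (j + 1))
    (hR : ∀ j, RH 0 C (h j) (fun _ => 0)) {x y : ℝ} (hxy : x + 1 / 2 ≤ y) :
    ∫ s in x..y, (w h X s) ^ 2 ≤ 392 * C * (y - x) := by
  have hC := C_one hd hR
  set n := ⌈2 * (y - x)⌉₊ with hn
  have h1 : 2 * (y - x) ≤ n := Nat.le_ceil _
  have h2 : (n : ℝ) < 2 * (y - x) + 1 := Nat.ceil_lt_add_one (by linarith)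
  have h3 := halves hd hX hR x n
  have h4 : ∫ s in x..y, (w h X s) ^ 2 ≤ ∫ s in x..(x + n / 2), (w h X s) ^ 2 := by
    apply intervalIntegral.integral_mono_interval (le_refl x) (by linarith) (by linarith)
    · exact Filter.Eventually.of_forall fun s => sq_nonneg _
    · exact w2_ii hd hX _ _
  refine h4.trans (h3.trans ?_)
  nlinarith

/-- the reverse Hoelder inequality -/
theorem rh {C : ℝ} (hd : ∀ j, Dif (h j)) (hX : ∀ j, X j + 2 ≤ X (j + 1))
    (hR : ∀ j, RH 0 C (h j) (fun _ => 0)) {x y : ℝ} (hxy : x < y) :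
    (y - x) * ∫ t in x..y, (w h X t) ^ 2 ≤ 1000000000 * C * (H h X y - H h X x) ^ 2 := by
  have hC := C_one hd hR
  have hmono := (H_mono hd hX).monotone
  have hpos : 0 < H h X y - H h X x := sub_pos.mpr (H_mono hd hX hxy)
  -- the main estimate
  have key : ∀ c : ℝ, 0 < c → 1 / 2 ≤ y - x → y - x ≤ 1000 * (H h X y - H h X x) →
      (y - x) * ∫ t in x..y, (w h X t) ^ 2 ≤ 1000000000 * C * (H h X y - H h X x) ^ 2 := by
    intro c hc h1 h2
    have h3 := long hd hX hR (x := x) (y := y) (by linarith)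
    have h4 : (y - x) * ∫ t in x..y, (w h X t) ^ 2 ≤ (y - x) * (392 * C * (y - x)) :=
      mul_le_mul_of_nonneg_left h3 (by linarith)
    have h5 : (y - x) ^ 2 ≤ (1000 * (H h X y - H h X x)) ^ 2 :=
      pow_le_pow_left₀ (by linarith) h2 2
    have h6 : 392 * C * (y - x) ^ 2 ≤ 392 * C * (1000 * (H h X y - H h X x)) ^ 2 :=
      mul_le_mul_of_nonneg_left h5 (by positivity)
    have h7 : 0 ≤ C * (H h X y - H h X x) ^ 2 := by positivity
    nlinarith
  by_cases hlong : 7 ≤ y - x
  · have h1 := H_diff_ge (X := X) hd x y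
    exact key 1 one_pos (by linarith) (by linarith)
  · have hlong' := not_le.mp hlong
    by_cases hx : ∃ j, ∃ s ∈ Icc x y, s ∈ Icc (X j) (X j + 1)
    · obtain ⟨j, s, hs, hj⟩ := hx
      by_cases hA : X j - 1 < x
      · by_cases hB : y < X j + 2
        · refine (one_block hd hX hR hxy hA hB).trans ?_
          have h7 : 0 ≤ C * (H h X y - H h X x) ^ 2 := by positivity
          nlinarith
        · have hB' := not_lt.mp hB
          have e1 := (H_block hd hX (j := j) (x := X j + 7 / 4)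
            ⟨by linarith, by linarith⟩).1
          have e2 := (H_block hd hX (j := j) (x := X j + 3 / 2)
            ⟨by linarith, by linarith⟩).1
          rw [(hd j).o _ (by intro h; linarith [h.2])] at e1 e2
          have h1 : H h X (X j + 7 / 4) ≤ H h X y := hmono (by linarith)
          have h2 : H h X x ≤ H h X (X j + 3 / 2) := hmono (by linarith [hs.1, hj.2])
          apply key 1 one_pos <;> linarith [hs.1, hj.2]
      · have hA' := not_lt.mp hA
        have e1 := (H_block hd hX (j := j) (x := X j - 1 / 4)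
          ⟨by linarith, by linarith⟩).1
        have e2 := (H_block hd hX (j := j) (x := X j - 1 / 2)
          ⟨by linarith, by linarith⟩).1
        rw [(hd j).o _ (by intro h; linarith [h.1])] at e1 e2
        have h1 : H h X (X j - 1 / 4) ≤ H h X y := hmono (by linarith [hs.2, hj.1])
        have h2 : H h X x ≤ H h X (X j - 1 / 2) := hmono (by linarith)
        apply key 1 one_pos <;> linarith [hs.2, hj.1]
    · have hout : ∀ s ∈ Icc x y, H h X s = s ∧ w h X s = 1 := fun s hs =>
        H_out (fun j hj => hx ⟨j, s, hs, hj⟩)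
      rw [(hout x ⟨le_refl _, hxy.le⟩).1, (hout y ⟨hxy.le, le_refl _⟩).1]
      have h1 : ∫ t in x..y, (w h X t) ^ 2 = ∫ t in x..y, (1 : ℝ) := by
        apply intervalIntegral.integral_congr
        intro s hs
        rw [uIcc_of_le hxy.le] at hs
        have := (hout s hs).2
        simp only [this]
        ring
      rw [h1]
      simp only [intervalIntegral.integral_const, smul_eq_mul, mul_one]
      have h7 : 0 ≤ (y - x) ^ 2 := by positivity
      nlinarith

end

/-- Cauchy-Schwarz -/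
theorem cs (f : ℝ → ℝ) (hf : Continuous f) {a b : ℝ} (hab : a < b) (E : Set ℝ)
    (hE : MeasurableSet E) (hEab : E ⊆ Icc a b) :
    (∫ x in E, f x) ^ 2 ≤ volume.real E * ∫ x in a..b, (f x) ^ 2 := by
  have hvE : volume E < ⊤ := lt_of_le_of_lt (measure_mono hEab) (by simp)
  have hi : ∀ g : ℝ → ℝ, Continuous g → IntegrableOn g E := fun g hg =>
    (hg.continuousOn.integrableOn_compact isCompact_Icc).mono_set hEab
  have h0 : ∀ t : ℝ, 0 ≤ volume.real E * (t * t) + (-2 * ∫ x in E, f x) * t +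
      ∫ x in E, (f x) ^ 2 := by
    intro t
    have h1 : 0 ≤ ∫ x in E, (f x - t) ^ 2 := integral_nonneg fun x => sq_nonneg _
    have h2 : ∫ x in E, (f x - t) ^ 2 = ∫ x in E, ((f x) ^ 2 + (-2 * t) * f x + t * t) := by
      congr 1
      ext x
      ring
    have i1 : IntegrableOn (fun x => (f x) ^ 2) E := hi _ (hf.pow 2)
    have i2 : IntegrableOn (fun x => (-2 * t) * f x) E := hi _ (hf.const_mul _)
    have i3 : IntegrableOn (fun _ : ℝ => t * t) E := hi _ continuous_const
    have h3 : ∫ x in E, ((f x) ^ 2 + (-2 * t) * f x + t * t) =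
        (∫ x in E, ((f x) ^ 2 + (-2 * t) * f x)) + ∫ x in E, t * t := by
      refine integral_add ?_ i3
      exact i1.add i2
    have h4 : ∫ x in E, ((f x) ^ 2 + (-2 * t) * f x) =
        (∫ x in E, (f x) ^ 2) + ∫ x in E, (-2 * t) * f x := integral_add i1 i2
    rw [h2, h3, h4, integral_const_mul, setIntegral_const, smul_eq_mul] at h1
    linarith
  have h1 := discrim_le_zero h0
  unfold discrim at h1
  have h2 : ∫ x in E, (f x) ^ 2 ≤ ∫ x in a..b, (f x) ^ 2 := by
    rw [intervalIntegral.integral_of_le hab.le, ← integral_Icc_eq_integral_Ioc]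
    apply setIntegral_mono_set ((hf.pow 2).continuousOn.integrableOn_compact isCompact_Icc)
    · exact Filter.Eventually.of_forall fun x => sq_nonneg _
    · exact hEab.eventuallyLE
  have h3 : volume.real E * ∫ x in E, (f x) ^ 2 ≤ volume.real E * ∫ x in a..b, (f x) ^ 2 :=
    mul_le_mul_of_nonneg_left h2 measureReal_nonneg
  nlinarith

theorem t_GLUE : S_GLUE := by
  intro C h X hd hR hX
  have hC := C_one hd hR
  have hmono := H_mono hd hX
  have hcont := H_cont hd hX
  refine ⟨H h X, ⟨hmono, hcont, ?_, w h X, fun x => (w_pos hd x).le,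
    (w_cont hd hX).locallyIntegrable, fun a b => H_int hd hX a b, ?_⟩, ?_, ?_⟩
  · apply hcont.surjective
    · apply Filter.tendsto_atTop_mono (f := fun x => x - 3)
      · intro x
        have := abs_le.mp (H_bound (X := X) hd x)
        linarith [this.1]
      · exact Filter.tendsto_atTop_add_const_right _ _ Filter.tendsto_id
    · apply Filter.tendsto_atBot_mono (f := fun x : ℝ => x + 3)
      · intro x
        have := abs_le.mp (H_bound (X := X) hd x)
        linarith [this.2]
      · exact Filter.tendsto_atBot_add_const_right _ _ Filter.tendsto_id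
  · refine ⟨Real.sqrt (1000000000 * C), 1 / 2, by positivity, by norm_num, ?_⟩
    intro a b hab E hE hEab
    have h1 := cs (w h X) (w_cont hd hX) hab E hE hEab
    have h2 := rh hd hX hR hab
    have hI : 0 ≤ ∫ x in a..b, w h X x :=
      intervalIntegral.integral_nonneg hab.le fun x _ => (w_pos hd x).le
    rw [H_int hd hX a b] at h2
    have hba : 0 < b - a := by linarith
    have hm : 0 ≤ volume.real E := measureReal_nonneg
    have h3 : (∫ x in E, w h X x) ^ 2 ≤ (Real.sqrt (1000000000 * C) *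
        (volume.real E / (b - a)) ^ (1 / 2 : ℝ) * ∫ x in a..b, w h X x) ^ 2 := by
      rw [← Real.sqrt_eq_rpow, mul_pow, mul_pow, Real.sq_sqrt (by positivity),
        Real.sq_sqrt (by positivity)]
      refine h1.trans ?_
      have h4 : ∫ t in a..b, (w h X t) ^ 2 ≤
          1000000000 * C * (∫ x in a..b, w h X x) ^ 2 / (b - a) := by
        rw [le_div_iff₀ hba, mul_comm]
        exact h2
      calc volume.real E * ∫ x in a..b, (w h X x) ^ 2
          ≤ volume.real E * (1000000000 * C * (∫ x in a..b, w h X x) ^ 2 / (b - a)) :=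
            mul_le_mul_of_nonneg_left h4 hm
        _ = 1000000000 * C * (volume.real E / (b - a)) * (∫ x in a..b, w h X x) ^ 2 := by ring
    exact (abs_le_of_sq_le_sq' h3 (by positivity)).2
  · intro j x hx
    exact (H_block hd hX ⟨by linarith [hx.1], by linarith [hx.2]⟩).1
  · intro x hx
    exact (H_out hx).1

end Pool.Agent.Y801.PL.Glue
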