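import Pool.Agent.Y290.PL.Stm

/-!
# Project PL, part RH: the reverse Hoelder inequality is preserved (helper801)
-/

set_option autoImplicit false

open MeasureTheory Set

open scoped ContDiff

namespace Pool.Agent.Y801.PL.RHp

open Pool.Agent.Y290.PL

theorem per_bound (f : ℝ → ℝ) (hf : Continuous f) (hp : ∀ t, f (t + 2 * Real.pi) = f t) :
    ∃ M : ℝ, 0 ≤ M ∧ ∀ t, |f t| ≤ M := by
  have h1 : Function.Periodic f (2 * Real.pi) := hp
  have h2 := h1.isBounded_of_continuous (by positivity) hf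
  obtain ⟨M, hM⟩ := h2.exists_norm_le
  refine ⟨|M|, abs_nonneg _, fun t => ?_⟩
  exact (hM (f t) ⟨t, rfl⟩).trans (le_abs_self M)

theorem per_deriv (f : ℝ → ℝ) (hp : ∀ t, f (t + 2 * Real.pi) = f t) (t : ℝ) :
    deriv f (t + 2 * Real.pi) = deriv f t := by
  rw [← deriv_comp_add_const f (2 * Real.pi) t]
  congr 1
  ext x
  exact hp x

theorem out_bound (f : ℝ → ℝ) (hf : Continuous f) (a : ℝ) (h0 : ∀ t, t ∉ Icc (0 : ℝ) 1 → f t = a) :
    ∃ M : ℝ, 0 ≤ M ∧ ∀ t, |f t| ≤ M := by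
  obtain ⟨M, hM⟩ := isCompact_Icc.exists_bound_of_continuousOn (f := f)
    (s := Icc (0 : ℝ) 1) hf.continuousOn
  refine ⟨|M| + |a|, by positivity, fun t => ?_⟩
  by_cases ht : t ∈ Icc (0 : ℝ) 1
  · have h1 := hM t ht
    have h2 := le_abs_self M
    have h3 := abs_nonneg a
    rw [Real.norm_eq_abs] at h1
    linarith
  · rw [h0 t ht]
    have h3 := abs_nonneg M
    linarith

theorem supp_int (f : ℝ → ℝ) (hf : Continuous f) (b : ℝ) (hb : 0 ≤ b) (h1 : ∀ t, f t ≤ b)
    (h0 : ∀ t, t ∉ Icc (0 : ℝ) 1 → f t = 0) (x y : ℝ) (hxy : x ≤ y) :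
    ∫ t in x..y, f t ≤ b := by
  rw [intervalIntegral.integral_of_le hxy]
  have i1 : IntegrableOn f (Ioc x y) :=
    (hf.continuousOn.integrableOn_compact isCompact_Icc).mono_set Ioc_subset_Icc_self
  have i2 : IntegrableOn ((Icc (0 : ℝ) 1).indicator fun _ => b) (Ioc x y) := by
    apply Integrable.integrableOn
    exact (integrable_indicator_iff measurableSet_Icc).mpr
      (integrableOn_const (by simp))
  have h2 : ∫ t in Ioc x y, f t ≤ ∫ t in Ioc x y, (Icc (0 : ℝ) 1).indicator (fun _ => b) t := by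
    apply setIntegral_mono i1 i2
    intro t
    by_cases ht : t ∈ Icc (0 : ℝ) 1
    · simp only [indicator_of_mem ht]
      exact h1 t
    · simp only [indicator_of_notMem ht]
      exact (h0 t ht).le
  refine h2.trans ?_
  rw [setIntegral_indicator measurableSet_Icc, setIntegral_const, smul_eq_mul]
  have h3 : volume.real (Ioc x y ∩ Icc (0 : ℝ) 1) ≤ 1 := by
    have h4 : volume.real (Ioc x y ∩ Icc (0 : ℝ) 1) ≤ volume.real (Icc (0 : ℝ) 1) :=
      measureReal_mono inter_subset_right (by simp)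
    rw [Real.volume_real_Icc] at h4
    simpa using h4
  nlinarith

theorem dif_deriv_out {h : ℝ → ℝ} (hh : Dif h) {x : ℝ} (hx : x ∉ Icc (0 : ℝ) 1) :
    deriv h x = 1 := by
  have h1 : h =ᶠ[nhds x] fun y => y := by
    filter_upwards [isClosed_Icc.isOpen_compl.mem_nhds hx] with y hy
    exact hh.o y hy
  rw [h1.deriv_eq]
  simp

theorem zero_deriv_out {f : ℝ → ℝ} {a : ℝ} (hf : ∀ x, x ∉ Icc (0 : ℝ) 1 → f x = a) {x : ℝ}
    (hx : x ∉ Icc (0 : ℝ) 1) : deriv f x = 0 := by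
  have h1 : f =ᶠ[nhds x] fun _ => a := by
    filter_upwards [isClosed_Icc.isOpen_compl.mem_nhds hx] with y hy
    exact hf y hy
  rw [h1.deriv_eq]
  simp

theorem deriv_smooth {f : ℝ → ℝ} (hf : ContDiff ℝ ∞ f) : ContDiff ℝ ∞ (deriv f) :=
  (contDiff_infty_iff_deriv.mp hf).2

/-- the derivative of the next diffeomorphism -/
theorem nh_deriv {h ζ φ : ℝ → ℝ} (hh : Differentiable ℝ h) (hζ : Differentiable ℝ ζ)
    (hφ : Differentiable ℝ φ) {lam : ℝ} (hl : lam ≠ 0) (x : ℝ) :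
    HasDerivAt (nh h ζ φ lam) (deriv h x * (1 + ζ x * deriv φ (lam * h x)) +
      lam⁻¹ * (deriv ζ x * φ (lam * h x))) x := by
  unfold nh
  have h1 : HasDerivAt h (deriv h x) x := (hh x).hasDerivAt
  have h2 : HasDerivAt ζ (deriv ζ x) x := (hζ x).hasDerivAt
  have h3 : HasDerivAt (fun y => lam * h y) (lam * deriv h x) x := h1.const_mul lam
  have h4 : HasDerivAt (fun y => φ (lam * h y)) (deriv φ (lam * h x) * (lam * deriv h x)) x :=
    (hφ (lam * h x)).hasDerivAt.comp x h3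
  have h5 : HasDerivAt (fun y => h y + lam⁻¹ * ζ y * φ (lam * h y))
      (deriv h x + (lam⁻¹ * deriv ζ x * φ (lam * h x) +
        lam⁻¹ * ζ x * (deriv φ (lam * h x) * (lam * deriv h x)))) x :=
    h1.add ((h2.const_mul lam⁻¹).mul h4)
  have e : deriv h x + (lam⁻¹ * deriv ζ x * φ (lam * h x) +
        lam⁻¹ * ζ x * (deriv φ (lam * h x) * (lam * deriv h x))) =
      deriv h x * (1 + ζ x * deriv φ (lam * h x)) + lam⁻¹ * (deriv ζ x * φ (lam * h x)) := by
    have : lam⁻¹ * lam = 1 := inv_mul_cancel₀ hl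
    linear_combination (ζ x * deriv φ (lam * h x) * deriv h x) * this
  rw [e] at h5
  exact h5

/-- pointwise bounds -/
structure Bd (h ζ φ : ℝ → ℝ) (m M0 c Hm Mφ Z1 : ℝ) : Prop where
  m0 : 0 < m
  m1 : m ≤ 1
  M1 : 1 ≤ M0
  c0 : 0 < c
  Hm0 : 0 ≤ Hm
  Mφ0 : 0 ≤ Mφ
  Z0 : 0 ≤ Z1
  hm : ∀ t, m ≤ 1 + deriv φ t
  hM : ∀ t, 1 + deriv φ t ≤ M0
  hc : ∀ t, c ≤ deriv h t
  hH : ∀ t, deriv h t ≤ Hm
  hφ : ∀ t, |φ t| ≤ Mφ
  hZ : ∀ t, |deriv ζ t| ≤ Z1

theorem Bd.fac {h ζ φ : ℝ → ℝ} {m M0 c Hm Mφ Z1 : ℝ} (B : Bd h ζ φ m M0 c Hm Mφ Z1)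
    (hζ : Cut ζ) (x s : ℝ) : m ≤ 1 + ζ x * deriv φ s ∧ 1 + ζ x * deriv φ s ≤ M0 := by
  have h1 := B.hm s
  have h2 := B.hM s
  have h3 := hζ.nn x
  have h4 := hζ.le x
  have h5 := B.m1
  have h6 := B.M1
  constructor <;> nlinarith

/-- the error term -/
theorem Bd.err {h ζ φ : ℝ → ℝ} {m M0 c Hm Mφ Z1 : ℝ} (B : Bd h ζ φ m M0 c Hm Mφ Z1)
    {lam : ℝ} (hl : 0 < lam) (x s : ℝ) :
    |lam⁻¹ * (deriv ζ x * φ s)| ≤ Z1 * Mφ / lam := by
  rw [abs_mul, abs_mul, abs_of_pos (inv_pos.mpr hl), div_eq_inv_mul]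
  apply mul_le_mul_of_nonneg_left _ (inv_pos.mpr hl).le
  exact mul_le_mul (B.hZ x) (B.hφ s) (abs_nonneg _) B.Z0

theorem bd_exists {φ κ : ℝ → ℝ} {β : ℝ} (hrd : RD φ κ β) : ∃ m M0 Mφ : ℝ, 0 < m ∧ m ≤ 1 ∧
    1 ≤ M0 ∧ 0 ≤ Mφ ∧ (∀ t, m ≤ 1 + deriv φ t) ∧ (∀ t, 1 + deriv φ t ≤ M0) ∧
    (∀ t, |φ t| ≤ Mφ) ∧ ∀ h ζ : ℝ → ℝ, Dif h → Cut ζ →
      ∃ c Hm Z1 : ℝ, Bd h ζ φ m M0 c Hm Mφ Z1 := by
  have hφ'c : Continuous (deriv φ) := (deriv_smooth hrd.φs).continuous
  obtain ⟨M1, hM10, hM1⟩ := per_bound (deriv φ) hφ'c (per_deriv φ hrd.φp)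
  obtain ⟨Mφ, hMφ0, hMφ⟩ := per_bound φ hrd.φs.continuous hrd.φp
  obtain ⟨M2, hM20, hM2⟩ := per_bound (fun t => (1 + deriv φ t)⁻¹)
    ((continuous_const.add hφ'c).inv₀ fun t => (hrd.φd t).ne')
    (fun t => by simp only [per_deriv φ hrd.φp t])
  have hm : ∀ t, min 1 (M2 + 1)⁻¹ ≤ 1 + deriv φ t := by
    intro t
    refine (min_le_right _ _).trans ?_
    have h1 := hM2 t
    have h2 := hrd.φd t
    rw [abs_of_pos (inv_pos.mpr h2)] at h1
    rw [inv_le_comm₀ (by positivity) h2]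
    linarith
  have hM : ∀ t, 1 + deriv φ t ≤ 1 + M1 := by
    intro t
    have := (abs_le.mp (hM1 t)).2
    linarith
  refine ⟨min 1 (M2 + 1)⁻¹, 1 + M1, Mφ, by positivity, min_le_left _ _, by linarith, hMφ0,
    hm, hM, hMφ, ?_⟩
  intro h ζ hh hζ
  have hh'c : Continuous (deriv h) := (deriv_smooth hh.s).continuous
  obtain ⟨Hm, hHm0, hHm⟩ := out_bound (deriv h) hh'c 1 (fun t ht => dif_deriv_out hh ht)
  obtain ⟨H2, hH20, hH2⟩ := out_bound (fun t => (deriv h t)⁻¹) (hh'c.inv₀ fun t => (hh.d t).ne') 1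
    (fun t ht => by simp only [dif_deriv_out hh ht, inv_one])
  obtain ⟨Z1, hZ10, hZ1⟩ := out_bound (deriv ζ) (deriv_smooth hζ.s).continuous 0
    (fun t ht => zero_deriv_out hζ.o ht)
  refine ⟨(H2 + 1)⁻¹, Hm, Z1, by positivity, min_le_left _ _, by linarith, by positivity, hHm0,
    hMφ0, hZ10, hm, hM, ?_, fun t => (abs_le.mp (hHm t)).2, hMφ, hZ1⟩
  intro t
  have h1 := hH2 t
  have h2 := hh.d t
  rw [abs_of_pos (inv_pos.mpr h2)] at h1
  rw [inv_le_comm₀ (by positivity) h2]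
  linarith

/-- for large `lam` the derivative is comparable -/
theorem Bd.comp {h ζ φ : ℝ → ℝ} {m M0 c Hm Mφ Z1 : ℝ} (B : Bd h ζ φ m M0 c Hm Mφ Z1)
    (hh : Dif h) (hζ : Cut ζ) (hφ : Differentiable ℝ φ) {lam : ℝ} (hl : 0 < lam)
    (hl2 : Z1 * Mφ / lam ≤ m / 2 * c) (x : ℝ) :
    m / 2 * deriv h x ≤ deriv (nh h ζ φ lam) x ∧ deriv (nh h ζ φ lam) x ≤ 2 * M0 * deriv h x := by
  rw [(nh_deriv (hh.s.differentiable (by simp)) (hζ.s.differentiable (by simp)) hφ hl.ne' x).deriv]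
  have h1 := B.fac hζ x (lam * h x)
  have h2 := abs_le.mp ((B.err hl x (lam * h x)).trans hl2)
  have h3 := hh.d x
  have h4 := B.hc x
  have h5 : m / 2 * c ≤ m / 2 * deriv h x :=
    mul_le_mul_of_nonneg_left h4 (by linarith [B.m0])
  have h6 := mul_le_mul_of_nonneg_left h1.1 h3.le
  have h7 := mul_le_mul_of_nonneg_left h1.2 h3.le
  have h8 : m / 2 * deriv h x ≤ M0 * deriv h x :=
    mul_le_mul_of_nonneg_right (by linarith [B.m1, B.M1, B.m0]) h3.le
  constructor
  · linarith [h2.1]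
  · linarith [h2.2]

theorem nh_smooth {h ζ φ : ℝ → ℝ} (hh : ContDiff ℝ ∞ h) (hζ : ContDiff ℝ ∞ ζ)
    (hφ : ContDiff ℝ ∞ φ) (lam : ℝ) : ContDiff ℝ ∞ (nh h ζ φ lam) := by
  unfold nh
  exact hh.add ((contDiff_const.mul hζ).mul (hφ.comp (contDiff_const.mul hh)))

theorem nz_smooth {h ζ κ : ℝ → ℝ} (hh : ContDiff ℝ ∞ h) (hζ : ContDiff ℝ ∞ ζ)
    (hκ : ContDiff ℝ ∞ κ) (lam : ℝ) : ContDiff ℝ ∞ (nz h ζ κ lam) := by
  unfold nz
  exact hζ.mul (hκ.comp (contDiff_const.mul hh))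

theorem nz_cut {h ζ φ κ : ℝ → ℝ} {β : ℝ} (hrd : RD φ κ β) (hh : Dif h) (hζ : Cut ζ) (lam : ℝ) :
    Cut (nz h ζ κ lam) := by
  refine ⟨nz_smooth hh.s hζ.s hrd.κs lam, ?_, ?_, ?_⟩
  · intro x hx
    unfold nz
    rw [hζ.o x hx, zero_mul]
  · intro x
    unfold nz
    exact mul_nonneg (hζ.nn x) (hrd.κ0 _)
  · intro x
    unfold nz
    exact mul_le_one₀ (hζ.le x) (hrd.κ0 _) (hrd.κ1 _)

theorem nh_dif {h ζ φ κ : ℝ → ℝ} {β : ℝ} (hrd : RD φ κ β) {m M0 c Hm Mφ Z1 : ℝ}
    (B : Bd h ζ φ m M0 c Hm Mφ Z1)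
    (hh : Dif h) (hζ : Cut ζ) {lam : ℝ} (hl : 0 < lam)
    (hl2 : Z1 * Mφ / lam ≤ m / 2 * c) : Dif (nh h ζ φ lam) := by
  refine ⟨nh_smooth hh.s hζ.s hrd.φs lam, ?_, ?_⟩
  · intro x
    have h1 := (B.comp hh hζ (hrd.φs.differentiable (by simp)) hl hl2 x).1
    have h2 := hh.d x
    have h3 := B.m0
    have h4 : 0 < m / 2 * deriv h x := by positivity
    linarith
  · intro x hx
    unfold nh
    rw [hζ.o x hx, hh.o x hx]
    ring

/-- replacement of the phase by the mean -/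
theorem mean_step (hEQ : S_EQ) {φ κ : ℝ → ℝ} {β : ℝ} (hrd : RD φ κ β) {h ζ : ℝ → ℝ}
    (hh : Dif h) (hζ : Cut ζ) : ∃ K : ℝ, 0 ≤ K ∧ ∀ lam : ℝ, 0 < lam → ∀ x y : ℝ, x ≤ y →
      ∫ t in x..y, (deriv h t) ^ 2 * (1 + ζ t * deriv φ (lam * h t)) ^ 2 *
        (1 + β * (ζ t * κ (lam * h t))) ≤
      (∫ t in x..y, (deriv h t) ^ 2 * (1 + β * ζ t)) + K / lam := by
  have hφ'c : Continuous (deriv φ) := (deriv_smooth hrd.φs).continuous
  have hκc : Continuous κ := hrd.κs.continuous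
  have hh's : ContDiff ℝ ∞ (deriv h) := deriv_smooth hh.s
  have hh'c := hh's.continuous
  have hhc : Continuous h := hh.s.continuous
  have hζc : Continuous ζ := hζ.s.continuous
  set a1 : ℝ → ℝ := fun t => 2 * deriv φ t + β * κ t with ha1
  set a2 : ℝ → ℝ := fun t => deriv φ t ^ 2 + 2 * β * deriv φ t * κ t with ha2
  set a3 : ℝ → ℝ := fun t => β * deriv φ t ^ 2 * κ t with ha3
  have ha1c : Continuous a1 := (hφ'c.const_mul 2).add (hκc.const_mul β)
  have ha2c : Continuous a2 := (hφ'c.pow 2).add ((hφ'c.const_mul (2 * β)).mul hκc)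
  have ha3c : Continuous a3 := ((hφ'c.pow 2).const_mul β).mul hκc
  have hp1 : ∀ t, a1 (t + 2 * Real.pi) = a1 t := fun t => by
    simp only [ha1, per_deriv φ hrd.φp t, hrd.κp t]
  have hp2 : ∀ t, a2 (t + 2 * Real.pi) = a2 t := fun t => by
    simp only [ha2, per_deriv φ hrd.φp t, hrd.κp t]
  have hp3 : ∀ t, a3 (t + 2 * Real.pi) = a3 t := fun t => by
    simp only [ha3, per_deriv φ hrd.φp t, hrd.κp t]
  obtain ⟨K1, hK1⟩ := hEQ h (fun t => (deriv h t) ^ 2 * ζ t) a1 hh ((hh's.pow 2).mul hζ.s)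
    (fun x hx => by simp only [hζ.o x hx, mul_zero]) ha1c hp1
  obtain ⟨K2, hK2⟩ := hEQ h (fun t => (deriv h t) ^ 2 * ζ t ^ 2) a2 hh
    ((hh's.pow 2).mul (hζ.s.pow 2))
    (fun x hx => by simp only [hζ.o x hx]; ring) ha2c hp2
  obtain ⟨K3, hK3⟩ := hEQ h (fun t => (deriv h t) ^ 2 * ζ t ^ 3) a3 hh
    ((hh's.pow 2).mul (hζ.s.pow 3))
    (fun x hx => by simp only [hζ.o x hx]; ring) ha3c hp3
  set m1 := 1 / (2 * Real.pi) * ∫ t in (0 : ℝ)..2 * Real.pi, a1 t with hm1
  set m2 := 1 / (2 * Real.pi) * ∫ t in (0 : ℝ)..2 * Real.pi, a2 t with hm2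
  set m3 := 1 / (2 * Real.pi) * ∫ t in (0 : ℝ)..2 * Real.pi, a3 t with hm3
  have hpot : ∀ z ∈ Icc (0 : ℝ) 1, 1 + z * m1 + z ^ 2 * m2 + z ^ 3 * m3 ≤ 1 + β * z := by
    intro z hz
    have h1 := hrd.pot z hz
    have h2 : ∫ t in (0 : ℝ)..2 * Real.pi, (1 + z * deriv φ t) ^ 2 * (1 + β * z * κ t) =
        2 * Real.pi * (1 + z * m1 + z ^ 2 * m2 + z ^ 3 * m3) := by
      have e : ∀ t, (1 + z * deriv φ t) ^ 2 * (1 + β * z * κ t) =
          1 + z * a1 t + z ^ 2 * a2 t + z ^ 3 * a3 t := by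
        intro t
        simp only [ha1, ha2, ha3]
        ring
      simp_rw [e]
      have i0 : IntervalIntegrable (fun _ : ℝ => (1 : ℝ)) volume 0 (2 * Real.pi) :=
        continuous_const.intervalIntegrable _ _
      have i1 : IntervalIntegrable (fun t => z * a1 t) volume 0 (2 * Real.pi) :=
        (ha1c.const_mul _).intervalIntegrable _ _
      have i2 : IntervalIntegrable (fun t => z ^ 2 * a2 t) volume 0 (2 * Real.pi) :=
        (ha2c.const_mul _).intervalIntegrable _ _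
      have i3 : IntervalIntegrable (fun t => z ^ 3 * a3 t) volume 0 (2 * Real.pi) :=
        (ha3c.const_mul _).intervalIntegrable _ _
      rw [intervalIntegral.integral_add ((i0.add i1).add i2) i3,
        intervalIntegral.integral_add (i0.add i1) i2, intervalIntegral.integral_add i0 i1,
        intervalIntegral.integral_const_mul, intervalIntegral.integral_const_mul,
        intervalIntegral.integral_const_mul, intervalIntegral.integral_const, hm1, hm2, hm3]
      simp only [sub_zero, smul_eq_mul, mul_one]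
      have hpi : (Real.pi : ℝ) ≠ 0 := Real.pi_ne_zero
      field_simp
    rw [h2] at h1
    have hpi : 0 < 2 * Real.pi := by positivity
    exact le_of_mul_le_mul_left h1 hpi
  refine ⟨|K1| + |K2| + |K3|, by positivity, ?_⟩
  intro lam hl x y hxy
  have k1 := (abs_le.mp (hK1 lam hl x y)).2
  have k2 := (abs_le.mp (hK2 lam hl x y)).2
  have k3 := (abs_le.mp (hK3 lam hl x y)).2
  have hlhc : Continuous fun t => lam * h t := hhc.const_mul lam
  have c1 : Continuous fun t => (deriv h t) ^ 2 * ζ t * a1 (lam * h t) :=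
    ((hh'c.pow 2).mul hζc).mul (ha1c.comp hlhc)
  have c2 : Continuous fun t => (deriv h t) ^ 2 * ζ t ^ 2 * a2 (lam * h t) :=
    ((hh'c.pow 2).mul (hζc.pow 2)).mul (ha2c.comp hlhc)
  have c3 : Continuous fun t => (deriv h t) ^ 2 * ζ t ^ 3 * a3 (lam * h t) :=
    ((hh'c.pow 2).mul (hζc.pow 3)).mul (ha3c.comp hlhc)
  have e1 : ∀ t, (deriv h t) ^ 2 * (1 + ζ t * deriv φ (lam * h t)) ^ 2 *
        (1 + β * (ζ t * κ (lam * h t))) = (deriv h t) ^ 2 +
        (deriv h t) ^ 2 * ζ t * a1 (lam * h t) + (deriv h t) ^ 2 * ζ t ^ 2 * a2 (lam * h t) +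
        (deriv h t) ^ 2 * ζ t ^ 3 * a3 (lam * h t) := by
    intro t
    simp only [ha1, ha2, ha3]
    ring
  simp_rw [e1]
  have i0 : IntervalIntegrable (fun t => (deriv h t) ^ 2) volume x y :=
    (hh'c.pow 2).intervalIntegrable _ _
  have i1 := c1.intervalIntegrable (μ := volume) x y
  have i2 := c2.intervalIntegrable (μ := volume) x y
  have i3 := c3.intervalIntegrable (μ := volume) x y
  rw [intervalIntegral.integral_add ((i0.add i1).add i2) i3,
    intervalIntegral.integral_add (i0.add i1) i2, intervalIntegral.integral_add i0 i1]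
  -- the means
  have j1 : IntervalIntegrable (fun t => (deriv h t) ^ 2 * ζ t) volume x y :=
    ((hh'c.pow 2).mul hζc).intervalIntegrable _ _
  have j2 : IntervalIntegrable (fun t => (deriv h t) ^ 2 * ζ t ^ 2) volume x y :=
    ((hh'c.pow 2).mul (hζc.pow 2)).intervalIntegrable _ _
  have j3 : IntervalIntegrable (fun t => (deriv h t) ^ 2 * ζ t ^ 3) volume x y :=
    ((hh'c.pow 2).mul (hζc.pow 3)).intervalIntegrable _ _
  have hmean : (∫ t in x..y, (deriv h t) ^ 2) + m1 * (∫ t in x..y, (deriv h t) ^ 2 * ζ t) +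
      m2 * (∫ t in x..y, (deriv h t) ^ 2 * ζ t ^ 2) +
      m3 * (∫ t in x..y, (deriv h t) ^ 2 * ζ t ^ 3) ≤
      ∫ t in x..y, (deriv h t) ^ 2 * (1 + β * ζ t) := by
    have e2 : (∫ t in x..y, (deriv h t) ^ 2) + m1 * (∫ t in x..y, (deriv h t) ^ 2 * ζ t) +
      m2 * (∫ t in x..y, (deriv h t) ^ 2 * ζ t ^ 2) +
      m3 * (∫ t in x..y, (deriv h t) ^ 2 * ζ t ^ 3) = ∫ t in x..y, ((deriv h t) ^ 2 +
        m1 * ((deriv h t) ^ 2 * ζ t) + m2 * ((deriv h t) ^ 2 * ζ t ^ 2) +
        m3 * ((deriv h t) ^ 2 * ζ t ^ 3)) := by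
      rw [intervalIntegral.integral_add ((i0.add (j1.const_mul m1)).add (j2.const_mul m2))
          (j3.const_mul m3),
        intervalIntegral.integral_add (i0.add (j1.const_mul m1)) (j2.const_mul m2),
        intervalIntegral.integral_add i0 (j1.const_mul m1), intervalIntegral.integral_const_mul,
        intervalIntegral.integral_const_mul, intervalIntegral.integral_const_mul]
    rw [e2]
    apply intervalIntegral.integral_mono_on hxy
    · exact ((i0.add (j1.const_mul m1)).add (j2.const_mul m2)).add (j3.const_mul m3)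
    · exact ((hh'c.pow 2).mul (continuous_const.add (hζc.const_mul β))).intervalIntegrable _ _
    · intro t _
      have h1 := hpot (ζ t) ⟨hζ.nn t, hζ.le t⟩
      have h2 := mul_le_mul_of_nonneg_left h1 (sq_nonneg (deriv h t))
      calc (deriv h t) ^ 2 + m1 * ((deriv h t) ^ 2 * ζ t) + m2 * ((deriv h t) ^ 2 * ζ t ^ 2) +
            m3 * ((deriv h t) ^ 2 * ζ t ^ 3)
          = (deriv h t) ^ 2 * (1 + ζ t * m1 + ζ t ^ 2 * m2 + ζ t ^ 3 * m3) := by ring
        _ ≤ _ := h2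
  have l1 : K1 / lam ≤ |K1| / lam := div_le_div_of_nonneg_right (le_abs_self _) hl.le
  have l2 : K2 / lam ≤ |K2| / lam := div_le_div_of_nonneg_right (le_abs_self _) hl.le
  have l3 : K3 / lam ≤ |K3| / lam := div_le_div_of_nonneg_right (le_abs_self _) hl.le
  rw [add_div, add_div]
  linarith

/-- the energy of the next diffeomorphism -/
theorem energy (hEQ : S_EQ) {φ κ : ℝ → ℝ} {β : ℝ} (hrd : RD φ κ β) {h ζ : ℝ → ℝ}
    (hh : Dif h) (hζ : Cut ζ) {m M0 c Hm Mφ Z1 : ℝ} (B : Bd h ζ φ m M0 c Hm Mφ Z1) :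
    ∃ K : ℝ, 0 ≤ K ∧ ∀ lam : ℝ, 0 < lam → Z1 * Mφ / lam ≤ m / 2 * c → ∀ x y : ℝ, x ≤ y →
      ∫ t in x..y, (deriv (nh h ζ φ lam) t) ^ 2 * (1 + β * nz h ζ κ lam t) ≤
      (∫ t in x..y, (deriv h t) ^ 2 * (1 + β * ζ t)) + K / lam := by
  obtain ⟨K, hK0, hK⟩ := mean_step hEQ hrd hh hζ
  have hφ'c : Continuous (deriv φ) := (deriv_smooth hrd.φs).continuous
  have hκc : Continuous κ := hrd.κs.continuous
  have hh'c : Continuous (deriv h) := (deriv_smooth hh.s).continuous
  have hhc : Continuous h := hh.s.continuous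
  have hζc : Continuous ζ := hζ.s.continuous
  have hφd : Differentiable ℝ φ := hrd.φs.differentiable (by simp)
  refine ⟨K + Z1 * Mφ * ((4 * M0 * Hm) * (1 + β)), by
    have := B.Z0; have := B.Mφ0; have := B.M1; have := B.Hm0; have := hrd.β0
    positivity, ?_⟩
  intro lam hl hl2 x y hxy
  have hlhc : Continuous fun t => lam * h t := hhc.const_mul lam
  have h1c : Continuous (deriv (nh h ζ φ lam)) :=
    (deriv_smooth (nh_smooth hh.s hζ.s hrd.φs lam)).continuous
  have hzc : Continuous (nz h ζ κ lam) := (nz_smooth hh.s hζ.s hrd.κs lam).continuous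
  set f1 : ℝ → ℝ := fun t => (deriv (nh h ζ φ lam) t) ^ 2 * (1 + β * nz h ζ κ lam t) with hf1
  set f0 : ℝ → ℝ := fun t => (deriv h t) ^ 2 * (1 + ζ t * deriv φ (lam * h t)) ^ 2 *
        (1 + β * (ζ t * κ (lam * h t))) with hf0
  have hf1c : Continuous f1 := (h1c.pow 2).mul (continuous_const.add (hzc.const_mul β))
  have hf0c : Continuous f0 :=
    ((hh'c.pow 2).mul ((continuous_const.add (hζc.mul (hφ'c.comp hlhc))).pow 2)).mul
      (continuous_const.add ((hζc.mul (hκc.comp hlhc)).const_mul β))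
  have hb : 0 ≤ Z1 * Mφ / lam * ((4 * M0 * Hm) * (1 + β)) := by
    have := B.Z0; have := B.Mφ0; have := B.M1; have := B.Hm0; have := hrd.β0
    positivity
  have hdiff : ∀ t, f1 t - f0 t ≤ Z1 * Mφ / lam * ((4 * M0 * Hm) * (1 + β)) := by
    intro t
    have d1 := (nh_deriv (hh.s.differentiable (by simp)) (hζ.s.differentiable (by simp)) hφd
      hl.ne' t).deriv
    set E := lam⁻¹ * (deriv ζ t * φ (lam * h t)) with hE
    set D1 := deriv (nh h ζ φ lam) t with hD1
    set D0 := deriv h t * (1 + ζ t * deriv φ (lam * h t)) with hD0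
    have hEle : |E| ≤ Z1 * Mφ / lam := B.err hl t (lam * h t)
    have hcomp := B.comp hh hζ hφd hl hl2 t
    have hpos : 0 < deriv h t := hh.d t
    have hHm : deriv h t ≤ Hm := B.hH t
    have hfac := B.fac hζ t (lam * h t)
    have hM1 := B.M1
    have hm0 := B.m0
    have hD1le : D1 ≤ 2 * M0 * Hm :=
      hcomp.2.trans (mul_le_mul_of_nonneg_left hHm (by positivity))
    have hD1nn : 0 ≤ D1 := le_trans (by positivity) hcomp.1
    have hD0nn : 0 ≤ D0 := mul_nonneg hpos.le (by linarith)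
    have hD0le : D0 ≤ 2 * M0 * Hm := by
      have : D0 ≤ Hm * M0 := mul_le_mul hHm hfac.2 (by linarith) B.Hm0
      nlinarith [B.Hm0, mul_nonneg B.Hm0 (by linarith : (0 : ℝ) ≤ M0)]
    have hk0 : 0 ≤ ζ t * κ (lam * h t) := mul_nonneg (hζ.nn t) (hrd.κ0 _)
    have hk1 : ζ t * κ (lam * h t) ≤ 1 := mul_le_one₀ (hζ.le t) (hrd.κ0 _) (hrd.κ1 _)
    have e : f1 t - f0 t = (E * (D1 + D0)) * (1 + β * (ζ t * κ (lam * h t))) := by
      have : E = D1 - D0 := by rw [d1]; ring
      rw [this]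
      simp only [hf1, hf0, nz]
      rw [← hD1, hD0]
      ring
    rw [e]
    have h2 : E * (D1 + D0) ≤ Z1 * Mφ / lam * (4 * M0 * Hm) := by
      calc E * (D1 + D0) ≤ |E| * (D1 + D0) :=
            mul_le_mul_of_nonneg_right (le_abs_self _) (by positivity)
        _ ≤ Z1 * Mφ / lam * (4 * M0 * Hm) :=
            mul_le_mul hEle (by linarith) (by positivity) (le_trans (abs_nonneg _) hEle)
    have h3 : 1 + β * (ζ t * κ (lam * h t)) ≤ 1 + β := by
      have := mul_le_mul_of_nonneg_left hk1 hrd.β0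
      linarith
    have h4 : 0 ≤ 1 + β * (ζ t * κ (lam * h t)) := by
      have := mul_nonneg hrd.β0 hk0
      linarith
    have h5 : 0 ≤ Z1 * Mφ / lam * (4 * M0 * Hm) :=
      mul_nonneg (le_trans (abs_nonneg _) hEle) (by
        have := B.Hm0
        positivity)
    calc (E * (D1 + D0)) * (1 + β * (ζ t * κ (lam * h t)))
        ≤ (Z1 * Mφ / lam * (4 * M0 * Hm)) * (1 + β * (ζ t * κ (lam * h t))) :=
          mul_le_mul_of_nonneg_right h2 h4
      _ ≤ (Z1 * Mφ / lam * (4 * M0 * Hm)) * (1 + β) := mul_le_mul_of_nonneg_left h3 h5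
      _ = Z1 * Mφ / lam * ((4 * M0 * Hm) * (1 + β)) := by ring
  have hout : ∀ t, t ∉ Icc (0 : ℝ) 1 → f1 t - f0 t = 0 := by
    intro t ht
    have d1 := (nh_deriv (hh.s.differentiable (by simp)) (hζ.s.differentiable (by simp)) hφd
      hl.ne' t).deriv
    have hz' : deriv ζ t = 0 := zero_deriv_out hζ.o ht
    simp only [hf1, hf0, nz]
    rw [d1, hz', hζ.o t ht]
    ring
  have h1 := supp_int (fun t => f1 t - f0 t) (hf1c.sub hf0c) _ hb hdiff hout x y hxy
  have h2 := hK lam hl x y hxy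
  have h3 : ∫ t in x..y, (f1 t - f0 t) = (∫ t in x..y, f1 t) - ∫ t in x..y, f0 t :=
    intervalIntegral.integral_sub (hf1c.intervalIntegrable _ _) (hf0c.intervalIntegrable _ _)
  rw [h3] at h1
  have h4 : (K + Z1 * Mφ * ((4 * M0 * Hm) * (1 + β))) / lam =
      K / lam + Z1 * Mφ / lam * ((4 * M0 * Hm) * (1 + β)) := by
    ring
  rw [h4]
  linarith

/-- short intervals -/
theorem short {φ κ : ℝ → ℝ} {β : ℝ} (hrd : RD φ κ β) {h ζ : ℝ → ℝ}
    (hh : Dif h) (hζ : Cut ζ) {m M0 c Hm Mφ Z1 : ℝ} (B : Bd h ζ φ m M0 c Hm Mφ Z1)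
    {lam : ℝ} (hl : 0 < lam) (hl2 : Z1 * Mφ / lam ≤ m / 2 * c) {L : ℝ}
    (hL : ∀ s t, |deriv h s - deriv h t| ≤ L * |s - t|) {x y : ℝ} (hxy : x < y)
    (hs : L * (y - x) ≤ c) :
    (y - x) * ∫ t in x..y, (deriv (nh h ζ φ lam) t) ^ 2 * (1 + β * nz h ζ κ lam t) ≤
      (1 + β) * (16 * M0 / m) ^ 2 * (nh h ζ φ lam y - nh h ζ φ lam x) ^ 2 := by
  have hφd : Differentiable ℝ φ := hrd.φs.differentiable (by simp)
  have hc0 := B.c0
  have hm0 := B.m0
  have hm1 := B.m1
  have hM1 := B.M1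
  have hβ := hrd.β0
  have hL0 : 0 ≤ L := by
    have := hL 0 1
    have h2 := abs_nonneg (deriv h 0 - deriv h 1)
    simp at this
    linarith
  have hnear : ∀ t ∈ Icc x y, deriv h t ≤ 2 * deriv h x ∧ deriv h x ≤ 2 * deriv h t := by
    intro t ht
    have h1 := abs_le.mp (hL t x)
    rw [abs_of_nonneg (by linarith [ht.1] : 0 ≤ t - x)] at h1
    have h2 : L * (t - x) ≤ L * (y - x) := mul_le_mul_of_nonneg_left (by linarith [ht.2]) hL0
    have h3 := B.hc x
    have h4 := B.hc t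
    constructor <;> linarith [h1.1, h1.2]
  have hbd : ∀ t ∈ Icc x y, deriv (nh h ζ φ lam) t ≤ 4 * M0 * deriv h x ∧
      m / 4 * deriv h x ≤ deriv (nh h ζ φ lam) t := by
    intro t ht
    have h1 := B.comp hh hζ hφd hl hl2 t
    have h2 := hnear t ht
    have h3 : 2 * M0 * deriv h t ≤ 2 * M0 * (2 * deriv h x) :=
      mul_le_mul_of_nonneg_left h2.1 (by positivity)
    have h4 : m / 4 * deriv h x ≤ m / 4 * (2 * deriv h t) :=
      mul_le_mul_of_nonneg_left h2.2 (by positivity)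
    constructor
    · linarith [h1.2]
    · linarith [h1.1]
  have hxpos := hh.d x
  have hns := nh_smooth hh.s hζ.s hrd.φs lam
  have h1c : Continuous (deriv (nh h ζ φ lam)) := (deriv_smooth hns).continuous
  have hzc : Continuous (nz h ζ κ lam) := (nz_smooth hh.s hζ.s hrd.κs lam).continuous
  -- upper bound
  have hup : ∫ t in x..y, (deriv (nh h ζ φ lam) t) ^ 2 * (1 + β * nz h ζ κ lam t) ≤
      ∫ t in x..y, (4 * M0 * deriv h x) ^ 2 * (1 + β) := by
    apply intervalIntegral.integral_mono_on hxy.le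
    · exact ((h1c.pow 2).mul (continuous_const.add (hzc.const_mul β))).intervalIntegrable _ _
    · exact continuous_const.intervalIntegrable _ _
    · intro t ht
      have h1 := hbd t ht
      have h2 : 0 ≤ deriv (nh h ζ φ lam) t := le_trans (by positivity) h1.2
      have hcut := nz_cut hrd hh hζ lam
      have h3 := hcut.nn t
      have h4 := hcut.le t
      apply mul_le_mul (pow_le_pow_left₀ h2 h1.1 2) _ _ (by positivity)
      · have := mul_le_mul_of_nonneg_left h4 hβ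
        linarith
      · have := mul_nonneg hβ h3
        linarith
  rw [intervalIntegral.integral_const, smul_eq_mul] at hup
  -- lower bound
  have hlow : m / 4 * deriv h x * (y - x) ≤ nh h ζ φ lam y - nh h ζ φ lam x := by
    have hFTC : ∫ t in x..y, deriv (nh h ζ φ lam) t = nh h ζ φ lam y - nh h ζ φ lam x :=
      intervalIntegral.integral_deriv_eq_sub
        (fun t _ => (hns.differentiable (by simp)) t) (h1c.intervalIntegrable _ _)
    rw [← hFTC]
    have h2 : ∫ t in x..y, m / 4 * deriv h x ≤ ∫ t in x..y, deriv (nh h ζ φ lam) t := by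
      apply intervalIntegral.integral_mono_on hxy.le
      · exact continuous_const.intervalIntegrable _ _
      · exact h1c.intervalIntegrable _ _
      · intro t ht
        exact (hbd t ht).2
    rw [intervalIntegral.integral_const, smul_eq_mul] at h2
    linarith
  have hyx : 0 < y - x := by linarith
  have hlow2 : (m / 4 * deriv h x * (y - x)) ^ 2 ≤ (nh h ζ φ lam y - nh h ζ φ lam x) ^ 2 :=
    pow_le_pow_left₀ (by positivity) hlow 2
  calc (y - x) * ∫ t in x..y, (deriv (nh h ζ φ lam) t) ^ 2 * (1 + β * nz h ζ κ lam t)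
      ≤ (y - x) * ((y - x) * ((4 * M0 * deriv h x) ^ 2 * (1 + β))) :=
        mul_le_mul_of_nonneg_left hup hyx.le
    _ = (1 + β) * (16 * M0 / m) ^ 2 * (m / 4 * deriv h x * (y - x)) ^ 2 := by
        field_simp
        ring
    _ ≤ (1 + β) * (16 * M0 / m) ^ 2 * (nh h ζ φ lam y - nh h ζ φ lam x) ^ 2 :=
        mul_le_mul_of_nonneg_left hlow2 (by positivity)

theorem final_num {D e C η c K Mφ lam b c1 : ℝ} (hC : 0 ≤ C) (hη : 0 < η) (hc : 0 < c)
    (hlam : 0 < lam) (hc1 : 0 < c1) (hb : c1 ≤ b) (hbD : c * b ≤ D)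
    (he : e = 2 * Mφ / lam) (hMφ : 0 ≤ Mφ) (hK : 0 ≤ K)
    (hl : (4 * (C + η) * Mφ + K / c) / (η * (c * c1)) ≤ lam) :
    C * D ^ 2 + b * (K / lam) ≤ (C + η) * (D - e) ^ 2 := by
  have hb0 : 0 < b := lt_of_lt_of_le hc1 hb
  have hDb : b ≤ D / c := by
    rw [le_div_iff₀ hc]
    linarith
  have hD0 : c * c1 ≤ D := (mul_le_mul_of_nonneg_left hb hc.le).trans hbD
  have hcc1 : 0 < c * c1 := mul_pos hc hc1
  have hDpos : 0 < D := lt_of_lt_of_le hcc1 hD0
  have h1 : 4 * (C + η) * Mφ + K / c ≤ lam * (η * (c * c1)) :=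
    (div_le_iff₀ (by positivity)).mp hl
  have h2 : (4 * (C + η) * Mφ + K / c) / lam ≤ η * (c * c1) := by
    rw [div_le_iff₀ hlam]
    linarith
  have h3 : (4 * (C + η) * Mφ + K / c) / lam ≤ η * D :=
    h2.trans (mul_le_mul_of_nonneg_left hD0 hη.le)
  have h4 : b * (K / lam) ≤ D / c * (K / lam) := mul_le_mul_of_nonneg_right hDb (by positivity)
  have h5 : D * ((4 * (C + η) * Mφ + K / c) / lam) ≤ D * (η * D) :=
    mul_le_mul_of_nonneg_left h3 hDpos.le
  have h6 : D * ((4 * (C + η) * Mφ + K / c) / lam) = 2 * (C + η) * D * e + D / c * (K / lam) := by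
    rw [he]
    ring
  have h7 : 0 ≤ (C + η) * e ^ 2 := by positivity
  nlinarith

theorem t_RH (hEQ : S_EQ) : S_RH := by
  intro φ κ β hrd
  obtain ⟨m, M0, Mφ, hm0, hm1, hM1, hMφ0, hm, hM, hMφ, hB⟩ := bd_exists hrd
  have hβ := hrd.β0
  have hrat : 1 ≤ 16 * M0 / m := by
    rw [le_div_iff₀ hm0]
    linarith
  have hrat2 : 1 ≤ (16 * M0 / m) ^ 2 := one_le_pow₀ hrat
  refine ⟨(1 + β) * (16 * M0 / m) ^ 2, by positivity, ?_, ?_⟩
  · intro ζ hζ x y hxy
    have hyx : 0 < y - x := by linarith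
    have h1 : ∫ t in x..y, (deriv (fun x : ℝ => x) t) ^ 2 * (1 + β * ζ t) ≤
        ∫ t in x..y, (1 + β) := by
      apply intervalIntegral.integral_mono_on hxy.le
      · have hζc : Continuous ζ := hζ.s.continuous
        simp only [deriv_id'', one_pow, one_mul]
        exact (continuous_const.add (hζc.const_mul β)).intervalIntegrable _ _
      · exact continuous_const.intervalIntegrable _ _
      · intro t _
        simp only [deriv_id'', one_pow, one_mul]
        have := mul_le_mul_of_nonneg_left (hζ.le t) hβ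
        linarith
    rw [intervalIntegral.integral_const, smul_eq_mul] at h1
    calc (y - x) * ∫ t in x..y, (deriv (fun x : ℝ => x) t) ^ 2 * (1 + β * ζ t)
        ≤ (y - x) * ((y - x) * (1 + β)) := mul_le_mul_of_nonneg_left h1 hyx.le
      _ = (1 + β) * 1 * (y - x) ^ 2 := by ring
      _ ≤ (1 + β) * (16 * M0 / m) ^ 2 * (y - x) ^ 2 := by
          apply mul_le_mul_of_nonneg_right _ (sq_nonneg _)
          exact mul_le_mul_of_nonneg_left hrat2 (by positivity)
  · intro h ζ C η hh hζ hC hη hRH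
    obtain ⟨c, Hm, Z1, B⟩ := hB h ζ hh hζ
    obtain ⟨K, hK0, hK⟩ := energy hEQ hrd hh hζ B
    have hc0 := B.c0
    have hZ0 := B.Z0
    have hC0 : 0 ≤ C := le_trans (by positivity) hC
    -- Lipschitz constant of the derivative
    obtain ⟨L, hL0, hL1⟩ := out_bound (deriv (deriv h)) (deriv_smooth (deriv_smooth hh.s)).continuous
      0 (fun t ht => zero_deriv_out (f := deriv h) (a := 1)
        (fun x hx => dif_deriv_out hh hx) ht)
    have hL : ∀ s t, |deriv h s - deriv h t| ≤ L * |s - t| := by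
      intro s t
      have := Convex.norm_image_sub_le_of_norm_deriv_le (f := deriv h) (s := univ) (x := t) (y := s)
        (C := L) (fun x _ => ((deriv_smooth hh.s).differentiable (by simp)) x)
        (fun x _ => hL1 x) convex_univ (mem_univ _) (mem_univ _)
      simpa [Real.norm_eq_abs] using this
    set c1 := c / (L + 1) with hc1
    have hc1p : 0 < c1 := by positivity
    refine ⟨max 1 (max (Z1 * Mφ / (m / 2 * c)) ((4 * (C + η) * Mφ + K / c) / (η * (c * c1)))),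
      lt_of_lt_of_le one_pos (le_max_left _ _), ?_⟩
    intro lam hlam
    have hl1 : 1 ≤ lam := (le_max_left _ _).trans hlam
    have hl : 0 < lam := by linarith
    have hl2' : Z1 * Mφ / (m / 2 * c) ≤ lam :=
      ((le_max_left _ _).trans (le_max_right _ _)).trans hlam
    have hl3 : (4 * (C + η) * Mφ + K / c) / (η * (c * c1)) ≤ lam :=
      ((le_max_right _ _).trans (le_max_right _ _)).trans hlam
    have hl2 : Z1 * Mφ / lam ≤ m / 2 * c := by
      rw [div_le_iff₀ (by positivity)] at hl2'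
      rw [div_le_iff₀ hl]
      linarith
    refine ⟨nh_dif hrd B hh hζ hl hl2, nz_cut hrd hh hζ lam, ?_⟩
    intro x y hxy
    have hyx : 0 < y - x := by linarith
    by_cases hshort : y - x ≤ c1
    · have hs : L * (y - x) ≤ c := by
        calc L * (y - x) ≤ (L + 1) * c1 := mul_le_mul (by linarith) hshort hyx.le (by linarith)
          _ = c := by
            rw [hc1]
            field_simp
      refine (short hrd hh hζ B hl hl2 hL hxy hs).trans ?_
      apply mul_le_mul_of_nonneg_right _ (sq_nonneg _)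
      linarith
    · have hlong : c1 ≤ y - x := (not_le.mp hshort).le
      have h1 := hK lam hl hl2 x y hxy.le
      have h2 := hRH x y hxy
      have hh'c : Continuous (deriv h) := (deriv_smooth hh.s).continuous
      have hD : c * (y - x) ≤ h y - h x := by
        have hFTC : ∫ t in x..y, deriv h t = h y - h x :=
          intervalIntegral.integral_deriv_eq_sub
            (fun t _ => (hh.s.differentiable (by simp)) t) (hh'c.intervalIntegrable _ _)
        rw [← hFTC]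
        have h3 : ∫ t in x..y, c ≤ ∫ t in x..y, deriv h t := by
          apply intervalIntegral.integral_mono_on hxy.le
          · exact continuous_const.intervalIntegrable _ _
          · exact hh'c.intervalIntegrable _ _
          · intro t _
            exact B.hc t
        rw [intervalIntegral.integral_const, smul_eq_mul] at h3
        linarith
      -- lower bound of the increment
      have hinc : h y - h x - 2 * Mφ / lam ≤ nh h ζ φ lam y - nh h ζ φ lam x := by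
        have hz : ∀ t, |lam⁻¹ * ζ t * φ (lam * h t)| ≤ Mφ / lam := by
          intro t
          rw [abs_mul, abs_mul, abs_of_pos (inv_pos.mpr hl), abs_of_nonneg (hζ.nn t)]
          have h4 : ζ t * |φ (lam * h t)| ≤ 1 * Mφ :=
            mul_le_mul (hζ.le t) (hMφ _) (abs_nonneg _) zero_le_one
          calc lam⁻¹ * ζ t * |φ (lam * h t)| = lam⁻¹ * (ζ t * |φ (lam * h t)|) := by ring
            _ ≤ lam⁻¹ * (1 * Mφ) := mul_le_mul_of_nonneg_left h4 (inv_pos.mpr hl).le
            _ = Mφ / lam := by ring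
        have h5 := (abs_le.mp (hz x)).2
        have h6 := (abs_le.mp (hz y)).1
        have e : 2 * Mφ / lam = Mφ / lam + Mφ / lam := by ring
        rw [e]
        unfold nh
        linarith
      have hfin := final_num (D := h y - h x) (e := 2 * Mφ / lam) (C := C) (η := η) (c := c)
        (K := K) (Mφ := Mφ) (lam := lam) (b := y - x) (c1 := c1) hC0 hη hc0 hl hc1p hlong hD rfl
        hMφ0 hK0 hl3
      have hDe : 0 ≤ h y - h x - 2 * Mφ / lam := by
        have h7 : (4 * (C + η) * Mφ + K / c) / lam ≤ η * (c * c1) := by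
          rw [div_le_iff₀ (by positivity)] at hl3
          rw [div_le_iff₀ hl]
          linarith
        have h8 : 4 * η * Mφ / lam ≤ (4 * (C + η) * Mφ + K / c) / lam := by
          apply div_le_div_of_nonneg_right _ hl.le
          have h9 : 0 ≤ K / c := by positivity
          have h10 : 0 ≤ 4 * C * Mφ := by positivity
          linarith
        have h11 : η * (4 * Mφ / lam) ≤ η * (c * c1) := by
          have : 4 * η * Mφ / lam = η * (4 * Mφ / lam) := by ring
          rw [← this]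
          exact h8.trans h7
        have h12 : 4 * Mφ / lam ≤ c * c1 := le_of_mul_le_mul_left h11 hη
        have h13 : c * c1 ≤ c * (y - x) := mul_le_mul_of_nonneg_left hlong hc0.le
        have h14 : 2 * Mφ / lam ≤ 4 * Mφ / lam := by
          apply div_le_div_of_nonneg_right _ hl.le
          linarith
        linarith
      calc (y - x) * ∫ t in x..y, (deriv (nh h ζ φ lam) t) ^ 2 * (1 + β * nz h ζ κ lam t)
          ≤ (y - x) * ((∫ t in x..y, (deriv h t) ^ 2 * (1 + β * ζ t)) + K / lam) :=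
            mul_le_mul_of_nonneg_left h1 hyx.le
        _ = (y - x) * (∫ t in x..y, (deriv h t) ^ 2 * (1 + β * ζ t)) + (y - x) * (K / lam) := by
            ring
        _ ≤ C * (h y - h x) ^ 2 + (y - x) * (K / lam) := by linarith
        _ ≤ (C + η) * (h y - h x - 2 * Mφ / lam) ^ 2 := hfin
        _ ≤ (C + η) * (nh h ζ φ lam y - nh h ζ φ lam x) ^ 2 := by
            apply mul_le_mul_of_nonneg_left _ (by positivity)
            exact pow_le_pow_left₀ hDe hinc 2

end Pool.Agent.Y801.PL.RHp
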